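import Pool.Agent.U88.RS.Basic

/-!
# A first countable rectifiable space is pseudometrizable (Gul'ko); helper88, MP_32aa7d_gt
-/

open Set Filter Topology
open scoped SetRel Uniformity

namespace U88.RS

universe u

/-- Metrization from a countable uniform base given by hand. -/
lemma pseudoMetrizable_of_seq {X : Type u} [t : TopologicalSpace X] (W : ℕ → Set (X × X))
    (hanti : Antitone W) (hrefl : ∀ n x, (x, x) ∈ W n)
    (hsymm : ∀ n x y, (x, y) ∈ W n → (y, x) ∈ W n)
    (hcomp : ∀ n x y z, (x, y) ∈ W (n+1) → (y, z) ∈ W (n+1) → (x, z) ∈ W n)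
    (hbase : ∀ a : X, ∀ V : Set X, V ∈ 𝓝 a ↔ ∃ n, {b | (a, b) ∈ W n} ⊆ V) :
    TopologicalSpace.PseudoMetrizableSpace X := by
  set F : Filter (X × X) := ⨅ n, 𝓟 (W n) with hF
  have hB : F.HasBasis (fun _ : ℕ => True) W := by
    refine hasBasis_iInf_principal ?_
    intro a b
    exact ⟨max a b, hanti (le_max_left _ _), hanti (le_max_right _ _)⟩
  let c : UniformSpace.Core X := UniformSpace.Core.mk' F
    (by
      intro r hr x
      obtain ⟨n, -, hn⟩ := hB.mem_iff.1 hr
      exact hn (hrefl n x))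
    (by
      intro r hr
      obtain ⟨n, -, hn⟩ := hB.mem_iff.1 hr
      refine hB.mem_iff.2 ⟨n, trivial, ?_⟩
      rintro ⟨x, y⟩ hxy
      exact hn (hsymm n x y hxy))
    (by
      intro r hr
      obtain ⟨n, -, hn⟩ := hB.mem_iff.1 hr
      refine ⟨W (n+1), hB.mem_of_mem trivial, ?_⟩
      rintro ⟨x, z⟩ ⟨y, hxy, hyz⟩
      exact hn (hcomp n x y z hxy hyz))
  have hct : c.toTopologicalSpace = t := by
    refine TopologicalSpace.ext_nhds ?_
    intro a
    rw [UniformSpace.Core.nhds_toTopologicalSpace]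
    ext V
    rw [hbase a V]
    change V ∈ comap (Prod.mk a) F ↔ _
    rw [(hB.comap (Prod.mk a)).mem_iff]
    constructor
    · rintro ⟨n, -, hn⟩
      exact ⟨n, hn⟩
    · rintro ⟨n, hn⟩
      exact ⟨n, trivial, hn⟩
  refine ⟨⟨UniformSpace.ofCore c, hct, ?_⟩⟩
  have : (𝓤[UniformSpace.ofCore c]) = F := rfl
  rw [this]
  exact hB.isCountablyGenerated

namespace Rect

variable {G : Type u} [TopologicalSpace G] (R : Rect G)

theorem pseudoMetrizable_of_firstCountable (h : (𝓝 R.e).IsCountablyGenerated) :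
    TopologicalSpace.PseudoMetrizableSpace G := by
  classical
  obtain ⟨U, hU⟩ := (𝓝 R.e).exists_antitone_basis
  let N : ℕ → G → Set G := fun k x => {y | R.q x y ∈ U k ∧ R.q y x ∈ U k}
  have hNanti : ∀ x, Antitone (fun k => N k x) := by
    intro x a b hab y hy
    exact ⟨hU.antitone hab hy.1, hU.antitone hab hy.2⟩
  have hNself : ∀ k x, x ∈ N k x := by
    intro k x
    have : R.e ∈ U k := mem_of_mem_nhds (hU.mem k)
    simp only [N, mem_ofPred_eq, R.qxx]
    exact ⟨this, this⟩
  have hNsymm : ∀ k x y, y ∈ N k x → x ∈ N k y := fun k x y h => ⟨h.2, h.1⟩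
  have hNnhds : ∀ k x, N k x ∈ 𝓝 x := by
    intro k x
    have h1 : Tendsto (fun y => R.q x y) (𝓝 x) (𝓝 R.e) := by
      have := R.tq (l := 𝓝 x) (f := fun _ => x) (g := id) tendsto_const_nhds tendsto_id
      simpa only [R.qxx, id] using this
    have h2 : Tendsto (fun y => R.q y x) (𝓝 x) (𝓝 R.e) := by
      have := R.tq (l := 𝓝 x) (f := id) (g := fun _ => x) tendsto_id tendsto_const_nhds
      simpa only [R.qxx, id] using this
    exact inter_mem (h1 (hU.mem k)) (h2 (hU.mem k))
  -- key sequence property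
  have key : ∀ (x : G) (y w : ℕ → G) (m : ℕ → ℕ), Tendsto m atTop atTop →
      Tendsto y atTop (𝓝 x) → (∀ n, w n ∈ N (m n) (y n)) → Tendsto w atTop (𝓝 x) := by
    intro x y w m hm hy hw
    have h1 : Tendsto (fun n => R.q (y n) (w n)) atTop (𝓝 R.e) := by
      have h2 : ∀ n, R.q (y n) (w n) ∈ U (m n) := fun n => (hw n).1
      rw [hU.tendsto_right_iff]
      intro i _
      filter_upwards [hm.eventually (eventually_ge_atTop i)] with n hn
      exact hU.antitone hn (h2 n)
    have h3 := R.tp hy h1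
    rw [R.pe] at h3
    refine h3.congr ?_
    intro n
    rw [R.pq]
  -- three steps
  have three : ∀ (x : G) (V : Set G), V ∈ 𝓝 x → ∃ m, ∀ y z w, y ∈ N m x → z ∈ N m y → w ∈ N m z →
      w ∈ V := by
    intro x V hV
    by_contra hcon
    push Not at hcon
    choose y z w hy hz hw hwV using hcon
    have h1 := key x (fun _ => x) y id tendsto_id tendsto_const_nhds hy
    have h2 := key x y z id tendsto_id h1 hz
    have h3 := key x z w id tendsto_id h2 hw
    obtain ⟨M, hM⟩ := eventually_atTop.1 (h3 hV)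
    exact hwV M (hM M le_rfl)
  -- the recursively chosen indices
  have hstep : ∀ (x : G) (k : ℕ), ∃ m, k < m ∧ ∀ y z w, y ∈ N m x → z ∈ N m y → w ∈ N m z →
      w ∈ N k x := by
    intro x k
    obtain ⟨m, hm⟩ := three x (N k x) (hNnhds k x)
    refine ⟨max m (k+1), lt_of_lt_of_le (Nat.lt_succ_self k) (le_max_right _ _), ?_⟩
    intro y z w hy hz hw
    exact hm y z w (hNanti x (le_max_left _ _) hy) (hNanti y (le_max_left _ _) hz)
      (hNanti z (le_max_left _ _) hw)
  choose st hst1 hst2 using hstep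
  let n : G → ℕ → ℕ := fun x k => (st x)^[k] 0
  have hn1 : ∀ x k, n x (k+1) = st x (n x k) := fun x k => Function.iterate_succ_apply' _ _ _
  have hnlt : ∀ x k, n x k < n x (k+1) := by
    intro x k; rw [hn1]; exact hst1 _ _
  have hnmono : ∀ x, StrictMono (n x) := fun x => strictMono_nat_of_lt_succ (hnlt x)
  have hnge : ∀ x k, k ≤ n x k := fun x k => (hnmono x).id_le k
  let B : ℕ → G → Set G := fun k x => N (n x k) x
  have hBanti : ∀ x, Antitone (fun k => B k x) := by
    intro x a b hab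
    exact hNanti x ((hnmono x).monotone hab)
  have hBself : ∀ k x, x ∈ B k x := fun k x => hNself _ x
  have hBreg : ∀ k x y, (B (k+1) x ∩ B (k+1) y).Nonempty → n x (k+1) ≤ n y (k+1) →
      B (k+1) x ∪ B (k+1) y ⊆ B k x := by
    intro k x y hne hle
    obtain ⟨c, hcx, hcy⟩ := hne
    set m := n x (k+1) with hm
    have hcx' : c ∈ N m x := hcx
    have hcy' : c ∈ N m y := hNanti y hle hcy
    have hyc : y ∈ N m c := hNsymm _ _ _ hcy'
    rintro w (hw | hw)
    · exact hBanti x (Nat.le_succ k) hw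
    · have hw' : w ∈ N m y := hNanti y hle hw
      have h5 := hst2 x (n x k) c y w
      rw [← hn1] at h5
      exact h5 hcx' hyc hw'
  let W : ℕ → Set (G × G) := fun k => {z | ∃ x, z.1 ∈ B k x ∧ z.2 ∈ B k x}
  refine pseudoMetrizable_of_seq W ?_ ?_ ?_ ?_ ?_
  · intro a b hab z hz
    obtain ⟨x, h1, h2⟩ := hz
    exact ⟨x, hBanti x hab h1, hBanti x hab h2⟩
  · intro k x
    exact ⟨x, hBself k x, hBself k x⟩
  · rintro k x y ⟨w, h1, h2⟩
    exact ⟨w, h2, h1⟩
  · rintro k a b c ⟨x, hax, hbx⟩ ⟨y, hby, hcy⟩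
    simp only at hax hbx hby hcy
    rcases le_total (n x (k+1)) (n y (k+1)) with hle | hle
    · have := hBreg k x y ⟨b, hbx, hby⟩ hle
      exact ⟨x, this (Or.inl hax), this (Or.inr hcy)⟩
    · have := hBreg k y x ⟨b, hby, hbx⟩ hle
      exact ⟨y, this (Or.inr hax), this (Or.inl hcy)⟩
  · intro a V
    constructor
    · intro hV
      by_contra hcon
      push Not at hcon
      have h1 : ∀ k, ∃ x b, a ∈ B k x ∧ b ∈ B k x ∧ b ∉ V := by
        intro k
        have := hcon k
        rw [not_subset] at this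
        obtain ⟨b, ⟨x, h1, h2⟩, hb⟩ := this
        exact ⟨x, b, h1, h2, hb⟩
      choose x b hax hbx hbV using h1
      have h2 : ∀ k, x k ∈ N k a := by
        intro k
        have h3 : a ∈ N k (x k) := hNanti (x k) (hnge (x k) k) (hax k)
        exact hNsymm _ _ _ h3
      have h4 := key a (fun _ => a) x id tendsto_id tendsto_const_nhds h2
      have h5 : ∀ k, b k ∈ N k (x k) := fun k => hNanti (x k) (hnge (x k) k) (hbx k)
      have h6 := key a x b id tendsto_id h4 h5
      obtain ⟨M, hM⟩ := eventually_atTop.1 (h6 hV)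
      exact hbV M (hM M le_rfl)
    · rintro ⟨k, hk⟩
      refine mem_of_superset (hNnhds (n a k) a) ?_
      intro b hb
      exact hk ⟨a, hBself k a, hb⟩

end Rect

end U88.RS
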