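import Pool.Agent.U88.RS.Net

/-!
# The ω₁-construction (helper88, MP_32aa7d_gt)
-/

open Set Filter Topology

namespace U88.RS

universe u

lemma exists_omega1 : ∃ (W : Type) (_ : LinearOrder W) (_ : WellFoundedLT W),
    (∀ a : W, (Iio a).Countable) ∧ ¬ Countable W := by
  refine ⟨(Cardinal.aleph 1).ord.ToType, inferInstance, inferInstance, ?_, ?_⟩
  · intro a
    rw [← Cardinal.le_aleph0_iff_set_countable]
    have h := Cardinal.mk_Iio_lt a (by simp)
    have h2 : Cardinal.mk (Iio a) < Cardinal.aleph 1 := by simpa using h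
    exact Cardinal.lt_aleph_one_iff.1 h2
  · intro h
    have h1 : Cardinal.mk (Cardinal.aleph 1).ord.ToType ≤ Cardinal.aleph0 := Cardinal.mk_le_aleph0
    rw [Cardinal.mk_toType, Cardinal.card_ord] at h1
    exact absurd h1 (not_le.2 Cardinal.aleph0_lt_aleph_one)

section Hull
variable {G : Type u} (p q : G → G → G) (e : G) (𝒬 : Set (Set G))
  (cov : Set G → Set G → Finset (Set G))

/-- starting family -/
def start (D : Set G) : Set (Set G) :=
  {P | P ∈ 𝒬 ∧ ∃ x ∈ insert e D ∪ (fun z : G × G => p z.1 z.2) '' (D ×ˢ D), x ∈ P}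

/-- one step of the closing off -/
def next (T : Set (Set G)) : Set (Set G) := T ∪ ⋃ A ∈ T, ⋃ B ∈ T, (cov A B : Set (Set G))

/-- iterates -/
def fam (D : Set G) (n : ℕ) : Set (Set G) := (next cov)^[n] (start p e 𝒬 D)

/-- the hull -/
def hull (D : Set G) : Set G := ⋃₀ (⋃ n, fam p e 𝒬 cov D n)

lemma fam_succ (D : Set G) (n : ℕ) :
    fam p e 𝒬 cov D (n+1) = next cov (fam p e 𝒬 cov D n) :=
  Function.iterate_succ_apply' _ _ _

lemma fam_mono_n (D : Set G) : Monotone (fam p e 𝒬 cov D) := by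
  refine monotone_nat_of_le_succ ?_
  intro n
  rw [fam_succ]
  exact subset_union_left

lemma fam_countable (hpc : PC 𝒬) {D : Set G} (hD : D.Countable) (n : ℕ) :
    (fam p e 𝒬 cov D n).Countable := by
  induction n with
  | zero =>
    refine hpc.meets ?_
    exact (hD.insert e).union ((hD.prod hD).image _)
  | succ n ih =>
    rw [fam_succ]
    exact ih.union (ih.biUnion fun A _ => ih.biUnion fun B _ => (Finset.finite_toSet _).countable)

lemma fam_sub (hcov : ∀ A B, ∀ P ∈ cov A B, P ∈ 𝒬) (D : Set G) (n : ℕ) :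
    fam p e 𝒬 cov D n ⊆ 𝒬 := by
  induction n with
  | zero => exact fun P hP => hP.1
  | succ n ih =>
    rw [fam_succ]
    rintro P (hP | hP)
    · exact ih hP
    · simp only [mem_iUnion] at hP
      obtain ⟨A, -, B, -, h⟩ := hP
      exact hcov A B P h

lemma fam_mono {D D' : Set G} (h : D ⊆ D') (n : ℕ) :
    fam p e 𝒬 cov D n ⊆ fam p e 𝒬 cov D' n := by
  induction n with
  | zero =>
    rintro P ⟨hP, x, hx, hxP⟩
    refine ⟨hP, x, ?_, hxP⟩
    rcases hx with hx | ⟨z, hz, rfl⟩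
    · exact Or.inl (insert_subset_insert h hx)
    · exact Or.inr ⟨z, ⟨h hz.1, h hz.2⟩, rfl⟩
  | succ n ih =>
    rw [fam_succ, fam_succ]
    refine union_subset_union ih ?_
    refine iUnion₂_mono' ?_
    intro A hA
    refine ⟨A, ih hA, ?_⟩
    refine iUnion₂_mono' ?_
    intro B hB
    exact ⟨B, ih hB, Subset.rfl⟩

lemma hull_mono {D D' : Set G} (h : D ⊆ D') : hull p e 𝒬 cov D ⊆ hull p e 𝒬 cov D' := by
  refine sUnion_mono ?_
  exact iUnion_mono fun n => fam_mono p e 𝒬 cov h n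

lemma sub_hull {D P : Set G} {x : G} (hP : P ∈ 𝒬) (hx : x ∈ P)
    (hxD : x ∈ insert e D ∪ (fun z : G × G => p z.1 z.2) '' (D ×ˢ D)) : P ⊆ hull p e 𝒬 cov D := by
  refine subset_sUnion_of_mem ?_
  exact mem_iUnion.2 ⟨0, hP, x, hxD, hx⟩

lemma hull_closed (D : Set G)
    (hcov : ∀ A ∈ 𝒬, ∀ B ∈ 𝒬, ∀ a ∈ A, ∀ b ∈ B, (∃ P ∈ cov A B, p a b ∈ P) ∧
      ∃ P ∈ cov A B, q a b ∈ P) (hcov0 : ∀ A B, ∀ P ∈ cov A B, P ∈ 𝒬) {a b : G}
    (ha : a ∈ hull p e 𝒬 cov D) (hb : b ∈ hull p e 𝒬 cov D) :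
    p a b ∈ hull p e 𝒬 cov D ∧ q a b ∈ hull p e 𝒬 cov D := by
  obtain ⟨A, hA, haA⟩ := ha
  obtain ⟨B, hB, hbB⟩ := hb
  obtain ⟨n, hn⟩ := mem_iUnion.1 hA
  obtain ⟨m, hm⟩ := mem_iUnion.1 hB
  have hn' := fam_mono_n p e 𝒬 cov D (le_max_left n m) hn
  have hm' := fam_mono_n p e 𝒬 cov D (le_max_right n m) hm
  have hAQ := fam_sub p e 𝒬 cov hcov0 D _ hn'
  have hBQ := fam_sub p e 𝒬 cov hcov0 D _ hm'
  obtain ⟨⟨P, hP, hPp⟩, ⟨P', hP', hPq⟩⟩ := hcov A hAQ B hBQ a haA b hbB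
  have key : ∀ P ∈ cov A B, P ∈ ⋃ n, fam p e 𝒬 cov D n := by
    intro P hP
    refine mem_iUnion.2 ⟨max n m + 1, ?_⟩
    rw [fam_succ]
    exact Or.inr (mem_iUnion₂.2 ⟨A, hn', mem_iUnion₂.2 ⟨B, hm', hP⟩⟩)
  exact ⟨⟨P, key P hP, hPp⟩, ⟨P', key P' hP', hPq⟩⟩

end Hull

section Top
variable {G : Type u} [TopologicalSpace G]

lemma exists_seq_outside [SequentialSpace G] (R : Rect G) {N : Set G} (hne : R.e ∈ N)
    (hp : ∀ a ∈ N, ∀ b ∈ N, R.p a b ∈ N) (hN : N ∉ 𝓝 R.e) :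
    ∃ c : ℕ → G, Tendsto c atTop (𝓝 R.e) ∧ ∀ n, c n ∉ N := by
  have hno : ¬ IsOpen N := fun h => hN (h.mem_nhds hne)
  have hnc : ¬ IsClosed Nᶜ := fun h => hno (isClosed_compl_iff.1 h)
  have hns : ¬ IsSeqClosed Nᶜ := fun h => hnc h.isClosed
  unfold IsSeqClosed at hns
  push Not at hns
  obtain ⟨x, z, hx, hz, hzN⟩ := hns
  have hzN' : z ∈ N := not_not.1 hzN
  refine ⟨fun n => R.q z (x n), ?_, ?_⟩
  · have := R.tq (l := atTop) (f := fun _ : ℕ => z) (g := x) tendsto_const_nhds hz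
    rwa [R.qxx] at this
  · intro n hn
    have := hp z hzN' _ hn
    rw [R.pq] at this
    exact hx n this

/-- Main step: a point-countable network of relatively compact sets gives a σ-compact
neighbourhood of `e`. -/
theorem exists_sigmaCompact_nhds [T2Space G] [SequentialSpace G] (R : Rect G)
    {𝒬 : Set (Set G)} (hpc : PC 𝒬) (hnet : Net 𝒬) (hcomp : ∀ A ∈ 𝒬, IsCompact (closure A)) :
    ∃ N ∈ 𝓝 R.e, IsSigmaCompact N := by
  classical
  by_contra hcon
  push Not at hcon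
  have hreg : RegularSpace G := R.regular
  -- the covers
  have h1 : ∀ A B : Set G, ∃ F : Finset (Set G), (∀ P ∈ F, P ∈ 𝒬) ∧ (A ∈ 𝒬 → B ∈ 𝒬 →
      ∀ a ∈ A, ∀ b ∈ B, (∃ P ∈ F, R.p a b ∈ P) ∧ ∃ P ∈ F, R.q a b ∈ P) := by
    intro A B
    by_cases hAB : A ∈ 𝒬 ∧ B ∈ 𝒬
    · have hc : IsCompact (((fun z : G × G => R.p z.1 z.2) '' (closure A ×ˢ closure B)) ∪
          ((fun z : G × G => R.q z.1 z.2) '' (closure A ×ˢ closure B))) :=
        ((((hcomp A hAB.1).prod (hcomp B hAB.2)).image R.cp)).union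
          (((hcomp A hAB.1).prod (hcomp B hAB.2)).image R.cq)
      obtain ⟨F, hF, hFc⟩ := cover_compact hpc hnet hc
      refine ⟨F, hF, fun _ _ a ha b hb => ⟨?_, ?_⟩⟩
      · exact hFc _ (Or.inl ⟨(a, b), ⟨subset_closure ha, subset_closure hb⟩, rfl⟩)
      · exact hFc _ (Or.inr ⟨(a, b), ⟨subset_closure ha, subset_closure hb⟩, rfl⟩)
    · exact ⟨∅, by simp, fun hA hB => absurd ⟨hA, hB⟩ hAB⟩
  choose cov hcov0 hcov using h1
  have hcov' : ∀ A ∈ 𝒬, ∀ B ∈ 𝒬, ∀ a ∈ A, ∀ b ∈ B, (∃ P ∈ cov A B, R.p a b ∈ P) ∧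
      ∃ P ∈ cov A B, R.q a b ∈ P := fun A hA B hB => hcov A B hA hB
  let N : Set G → Set G := hull R.p R.e 𝒬 cov
  have hpt : ∀ x : G, ∃ P ∈ 𝒬, x ∈ P := by
    intro x
    obtain ⟨P, hP, -, hinf⟩ := hnet (fun _ => x) x tendsto_const_nhds univ isOpen_univ trivial
    obtain ⟨n, hn⟩ := hinf.nonempty
    exact ⟨P, hP, hn⟩
  have hNe : ∀ D, R.e ∈ N D := by
    intro D
    obtain ⟨P, hP, hx⟩ := hpt R.e
    exact sub_hull R.p R.e 𝒬 cov hP hx (Or.inl (mem_insert _ _)) hx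
  have hDN : ∀ D, D ⊆ N D := by
    intro D x hxD
    obtain ⟨P, hP, hx⟩ := hpt x
    exact sub_hull R.p R.e 𝒬 cov hP hx (Or.inl (mem_insert_of_mem _ hxD)) hx
  have hNp : ∀ D, ∀ a ∈ N D, ∀ b ∈ N D, R.p a b ∈ N D := fun D a ha b hb =>
    (hull_closed R.p R.q R.e 𝒬 cov D hcov' hcov0 ha hb).1
  have hNq : ∀ D, ∀ a ∈ N D, ∀ b ∈ N D, R.q a b ∈ N D := fun D a ha b hb =>
    (hull_closed R.p R.q R.e 𝒬 cov D hcov' hcov0 ha hb).2
  have hNnot : ∀ D : Set G, D.Countable → N D ∉ 𝓝 R.e := by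
    intro D hD hmem
    refine hcon (⋃₀ (closure '' (⋃ n, fam R.p R.e 𝒬 cov D n))) ?_ ?_
    · refine mem_of_superset hmem ?_
      rintro x ⟨P, hP, hx⟩
      exact ⟨closure P, ⟨P, hP, rfl⟩, subset_closure hx⟩
    · refine isSigmaCompact_sUnion_of_isCompact ?_ ?_
      · exact (countable_iUnion fun n => fam_countable R.p R.e 𝒬 cov hpc hD n).image _
      · rintro _ ⟨P, hP, rfl⟩
        obtain ⟨n, hn⟩ := mem_iUnion.1 hP
        exact hcomp P (fam_sub R.p R.e 𝒬 cov hcov0 D n hn)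
  have h2 : ∀ D : Set G, ∃ c : ℕ → G, D.Countable → (Tendsto c atTop (𝓝 R.e) ∧ ∀ n, c n ∉ N D) := by
    intro D
    by_cases hD : D.Countable
    · obtain ⟨c, hc⟩ := exists_seq_outside R (hNe D) (hNp D) (hNnot D hD)
      exact ⟨c, fun _ => hc⟩
    · exact ⟨fun _ => R.e, fun h => absurd h hD⟩
  choose cc hcc using h2
  obtain ⟨W, iL, iW, hWc, hWu⟩ := exists_omega1
  -- the recursion
  let c : W → ℕ → G := (wellFounded_lt (α := W)).fix
    (fun α rec => cc (⋃ (β) (h : β < α), range (rec β h)))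
  let D : W → Set G := fun α => ⋃ (β) (_ : β < α), range (c β)
  have hc_eq : ∀ α, c α = cc (D α) := by
    intro α
    exact (wellFounded_lt (α := W)).fix_eq _ α
  have hDc : ∀ α, (D α).Countable := fun α =>
    Set.Countable.biUnion (s := Iio α) (hWc α) (fun β _ => countable_range _)
  have hc1 : ∀ α, Tendsto (c α) atTop (𝓝 R.e) := by
    intro α; rw [hc_eq]; exact (hcc _ (hDc α)).1
  have hc2 : ∀ α n, c α n ∉ N (D α) := by
    intro α n; rw [hc_eq]; exact (hcc _ (hDc α)).2 n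
  have hcD : ∀ β α n, β < α → c β n ∈ D α := by
    intro β α n h
    exact mem_iUnion₂.2 ⟨β, h, n, rfl⟩
  have hDmono : ∀ α α', α ≤ α' → N (D α) ⊆ N (D α') := by
    intro α α' h
    refine hull_mono R.p R.e 𝒬 cov ?_
    intro x hx
    obtain ⟨β, hβ, hxβ⟩ := mem_iUnion₂.1 hx
    exact mem_iUnion₂.2 ⟨β, lt_of_lt_of_le hβ h, hxβ⟩
  -- injections of initial segments
  have h3 : ∀ α : W, ∃ f : W → ℕ, InjOn f (Iio α) := fun α => countable_iff_exists_injOn.1 (hWc α)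
  choose ε hε using h3
  -- fast choice for each α
  have h4 : ∀ α : W, ∃ f : Iio α → ℕ, ∀ g : Iio α → ℕ, (∀ i, f i ≤ g i) → ∀ k : ℕ → Iio α,
      Function.Injective k → ∀ z,
      ¬ Tendsto (fun n => R.p (c (k n) (ε α (k n))) (c α (g (k n)))) atTop (𝓝 z) := by
    intro α
    have hco : Countable (Iio α) := (hWc α).to_subtype
    have hdisc : Disc (fun β : Iio α => c β (ε α β)) := by
      refine disc_of_seq ?_
      intro k hk z hz
      obtain ⟨P, hP, -, hinf⟩ := hnet _ z hz univ isOpen_univ trivial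
      obtain ⟨a, ha, b, hb, hab⟩ := hinf.nontrivial
      have key : ∀ a b : ℕ, c (k a) (ε α (k a)) ∈ P → c (k b) (ε α (k b)) ∈ P →
          ¬ ((k a : W) < k b) := by
        intro a b ha hb hlt
        have h5 : P ⊆ N (D (k b)) := sub_hull R.p R.e 𝒬 cov hP ha
          (Or.inl (mem_insert_of_mem _ (hcD _ _ _ hlt)))
        exact hc2 _ _ (h5 hb)
      rcases lt_trichotomy (k a : W) (k b) with h | h | h
      · exact key a b ha hb h
      · exact hab (hk (Subtype.ext h))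
      · exact key b a hb ha h
    refine slow hpc hnet hdisc (y := fun (β : Iio α) n => R.p (c β (ε α β)) (c α n)) ?_
    intro β
    have := R.tp (l := atTop) (f := fun _ : ℕ => c β (ε α β)) (g := c α) tendsto_const_nhds (hc1 α)
    rwa [R.pe] at this
  choose f hf using h4
  let g : ∀ α : W, Iio α → ℕ := fun α β => max (f α β) (ε α β)
  let I : Type := {i : W × W // i.1 < i.2}
  let T : I → G := fun i => R.p (c i.1.1 (ε i.1.2 i.1.1)) (c i.1.2 (g i.1.2 ⟨i.1.1, i.2⟩))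
  have hTnot : ∀ i : I, T i ∉ N (D i.1.2) := by
    intro i hi
    have h5 : c i.1.1 (ε i.1.2 i.1.1) ∈ N (D i.1.2) := hDN _ (hcD _ _ _ i.2)
    have h6 := hNq _ _ h5 _ hi
    simp only [T, R.qp] at h6
    exact hc2 _ _ h6
  have hTin : ∀ i : I, ∀ α', i.1.2 < α' → ∀ P ∈ 𝒬, T i ∈ P → P ⊆ N (D α') := by
    intro i α' hi P hP hTP
    refine sub_hull R.p R.e 𝒬 cov hP hTP (Or.inr ?_)
    exact ⟨(_, _), ⟨hcD _ _ _ (i.2.trans hi), hcD _ _ _ hi⟩, rfl⟩
  have hT : Disc T := by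
    refine disc_of_seq ?_
    intro κ hκ w hw
    obtain ⟨P, hP, -, hinf⟩ := hnet _ w hw univ isOpen_univ trivial
    -- all elements have the same second coordinate
    obtain ⟨j0, hj0⟩ := hinf.nonempty
    have hsame : ∀ j ∈ {n | T (κ n) ∈ P}, (κ j).1.2 = (κ j0).1.2 := by
      intro j hj
      rcases lt_trichotomy (κ j).1.2 (κ j0).1.2 with h | h | h
      · exact absurd (hTin (κ j) _ h P hP hj hj0) (hTnot _)
      · exact h
      · exact absurd (hTin (κ j0) _ h P hP hj0 hj) (hTnot _)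
    obtain ⟨φ, hφ, hφP⟩ := exists_enum hinf
    set α := (κ j0).1.2 with hα
    have hsame' : ∀ n, (κ (φ n)).1.2 = α := fun n => hsame _ (hφP n)
    refine hf α (g α) (fun i => le_max_left _ _)
      (fun n => ⟨(κ (φ n)).1.1, by rw [← hsame' n]; exact (κ (φ n)).2⟩) ?_ w ?_
    · intro a b hab
      apply hφ.injective
      apply hκ
      have h7 : (κ (φ a)).1.1 = (κ (φ b)).1.1 := congrArg Subtype.val hab
      refine Subtype.ext (Prod.ext h7 ?_)
      rw [hsame', hsame']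
    · refine (hw.comp hφ.tendsto_atTop).congr ?_
      intro n
      have h8 : ∀ (i : I) (α : W) (h : i.1.2 = α), T i =
          R.p (c i.1.1 (ε α i.1.1)) (c α (g α ⟨i.1.1, by rw [← h]; exact i.2⟩)) := by
        intro i α h
        subst h
        rfl
      exact h8 _ α (hsame' n)
  obtain ⟨V, hV, hVfin⟩ := hT R.e
  have h7 : Tendsto (fun y : G × G => R.p y.1 y.2) (𝓝 (R.e, R.e)) (𝓝 R.e) := by
    have := R.cp.tendsto (R.e, R.e)
    simpa only [R.pe] using this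
  have h8 := h7 hV
  rw [nhds_prod_eq] at h8
  obtain ⟨V1, hV1, hV12⟩ := Filter.mem_prod_same_iff.1 (Filter.mem_map.1 h8)
  have h9 : ∀ α : W, ∃ m, ∀ k ≥ m, c α k ∈ V1 := fun α => eventually_atTop.1 ((hc1 α) hV1)
  choose m hm using h9
  -- pigeonhole
  have h10 : ∃ n0, ¬ {α | m α = n0}.Countable := by
    by_contra hall
    push Not at hall
    apply hWu
    have : (univ : Set W) = ⋃ n, {α | m α = n} := by
      ext α; simp
    have h11 : (univ : Set W).Countable := by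
      rw [this]; exact countable_iUnion hall
    exact countable_univ_iff.1 h11
  obtain ⟨n0, hn0⟩ := h10
  have hI0inf : {α | m α = n0}.Infinite := fun h => hn0 h.countable
  let s : ℕ ↪ {α | m α = n0} := hI0inf.natEmbedding
  have h12 : ¬ ({α | m α = n0} ⊆ ⋃ n, Iic (s n : W)) := by
    intro hsub
    refine hn0 (Set.Countable.mono hsub (countable_iUnion fun n => ?_))
    have : Iic (s n : W) = insert (s n : W) (Iio (s n : W)) := by
      ext x
      simp only [mem_Iic, mem_insert_iff, mem_Iio]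
      exact le_iff_eq_or_lt
    rw [this]
    exact (hWc _).insert _
  rw [not_subset] at h12
  obtain ⟨α, hα, hαn⟩ := h12
  have hsα : ∀ n, (s n : W) < α := by
    intro n
    by_contra hle
    exact hαn (mem_iUnion.2 ⟨n, not_lt.1 hle⟩)
  -- infinitely many n with ε α (s n) ≥ n0
  have h13 : {n | ε α (s n) < n0}.Finite := by
    have h14 : (fun n => ε α (s n)) '' {n | ε α (s n) < n0} ⊆ Iio n0 := by
      rintro _ ⟨n, hn, rfl⟩
      exact hn
    refine Set.Finite.of_finite_image ((Set.finite_Iio n0).subset h14) ?_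
    intro a _ b _ hab
    have := hε α (hsα a) (hsα b) hab
    exact s.injective (Subtype.ext this)
  have h15 : ({n | ε α (s n) < n0}ᶜ).Infinite := h13.infinite_compl
  have h16 : ((fun n => (⟨(s n, α), hsα n⟩ : I)) '' ({n | ε α (s n) < n0}ᶜ)) ⊆ {i | T i ∈ V} := by
    rintro _ ⟨n, hn, rfl⟩
    have hn' : n0 ≤ ε α (s n) := not_lt.1 hn
    have h17 : c (s n) (ε α (s n)) ∈ V1 := by
      refine hm _ _ ?_
      have : m (s n) = n0 := (s n).2
      rw [this]; exact hn'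
    have h18 : c α (g α ⟨s n, hsα n⟩) ∈ V1 := by
      refine hm _ _ ?_
      have : m α = n0 := hα
      rw [this]
      exact le_trans hn' (le_max_right _ _)
    exact hV12 (show ((_, _) : G × G) ∈ V1 ×ˢ V1 from ⟨h17, h18⟩)
  have h19 := hVfin.subset h16
  refine h15 (Set.Finite.of_finite_image h19 ?_)
  intro a _ b _ hab
  have h20 : (s a : W) = s b := by
    have := congrArg (fun i : I => i.1.1) hab
    exact this
  exact s.injective (Subtype.ext h20)

end Top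

end U88.RS
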