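import Pool.Agent.U88.RS.Basic

/-!
# Locally σ-compact rectifiable spaces are sums of σ-compact spaces (helper88, MP_32aa7d_gt)
-/

open Set Filter Topology

namespace U88.RS

universe u

/-- Locally finite refinement inside a Lindelöf clopen set. -/
lemma lindelof_refine {G : Type u} [TopologicalSpace G] [RegularSpace G] {J : Set G}
    (hJ : IsClopen J) (hL : IsLindelof J) {α : Type u} [Nonempty α] (s : α → Set G)
    (hs : ∀ a, IsOpen (s a)) (hc : ⋃ a, s a = univ) :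
    ∃ t : ℕ → Set G, (∀ n, IsOpen (t n)) ∧ (∀ n, t n ⊆ J) ∧ (∀ n, ∃ a, t n ⊆ s a) ∧
      J ⊆ ⋃ n, t n ∧ ∀ z ∈ J, ∃ W ∈ 𝓝 z, {n | (t n ∩ W).Nonempty}.Finite := by
  classical
  have h1 : ∀ z : G, ∃ V : Set G, ∃ a, z ∈ J → V ∈ 𝓝 z ∧ IsOpen V ∧ closure V ⊆ s a ∩ J := by
    intro z
    by_cases hz : z ∈ J
    · have hz2 : z ∈ ⋃ a, s a := by rw [hc]; trivial
      obtain ⟨a, ha⟩ := mem_iUnion.1 hz2
      have h2 : s a ∩ J ∈ 𝓝 z := inter_mem ((hs a).mem_nhds ha) (hJ.isOpen.mem_nhds hz)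
      obtain ⟨W, hW, hWc, hWV⟩ := exists_mem_nhds_isClosed_subset h2
      refine ⟨interior W, a, fun _ => ⟨interior_mem_nhds.2 hW, isOpen_interior, ?_⟩⟩
      exact (closure_minimal interior_subset hWc).trans hWV
    · exact ⟨∅, Classical.arbitrary α, fun h => absurd h hz⟩
  choose V a hVa using h1
  rcases J.eq_empty_or_nonempty with rfl | hne
  · exact ⟨fun _ => ∅, fun _ => isOpen_empty, fun _ => empty_subset _,
      fun _ => ⟨Classical.arbitrary α, empty_subset _⟩, empty_subset _, fun z hz => hz.elim⟩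
  obtain ⟨T, hTc, hTJ, hJT⟩ := hL.elim_nhds_subcover V (fun z hz => (hVa z hz).1)
  have hTne : T.Nonempty := by
    obtain ⟨z, hz⟩ := hne
    obtain ⟨w, hw, -⟩ := mem_iUnion₂.1 (hJT hz)
    exact ⟨w, hw⟩
  obtain ⟨x, hx⟩ := hTc.exists_eq_range hTne
  have hxJ : ∀ n, x n ∈ J := fun n => hTJ _ (by rw [hx]; exact ⟨n, rfl⟩)
  let t : ℕ → Set G := fun n => (s (a (x n)) ∩ J) \ ⋃ i ∈ Finset.range n, closure (V (x i))
  have htJ : ∀ n, t n ⊆ J := fun n y hy => hy.1.2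
  have hcovV : ∀ z ∈ J, ∃ m, z ∈ V (x m) := by
    intro z hz
    obtain ⟨w, hw, hzw⟩ := mem_iUnion₂.1 (hJT hz)
    rw [hx] at hw
    obtain ⟨m, rfl⟩ := hw
    exact ⟨m, hzw⟩
  refine ⟨t, ?_, htJ, fun n => ⟨a (x n), fun y hy => hy.1.1⟩, ?_, ?_⟩
  · intro n
    refine ((hs _).inter hJ.isOpen).sdiff ?_
    exact Set.Finite.isClosed_biUnion (Finset.finite_toSet _) (fun i _ => isClosed_closure)
  · intro z hz
    have hex : ∃ n, z ∈ s (a (x n)) := by
      obtain ⟨m, hm⟩ := hcovV z hz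
      exact ⟨m, ((hVa _ (hxJ m)).2.2 (subset_closure hm)).1⟩
    refine mem_iUnion.2 ⟨Nat.find hex, ⟨Nat.find_spec hex, hz⟩, ?_⟩
    intro hmem
    obtain ⟨i, hi, hi2⟩ := mem_iUnion₂.1 hmem
    have hi' : i < Nat.find hex := by simpa using hi
    exact Nat.find_min hex hi' (((hVa _ (hxJ i)).2.2 hi2).1)
  · intro z hz
    obtain ⟨m, hm⟩ := hcovV z hz
    refine ⟨V (x m), ((hVa _ (hxJ m)).2.1).mem_nhds hm, ?_⟩
    refine (Set.finite_Iic m).subset ?_
    rintro n ⟨y, hyt, hyV⟩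
    by_contra hlt
    have hlt' : m < n := not_le.1 hlt
    exact hyt.2 (mem_biUnion (show m ∈ (Finset.range n : Finset ℕ) from Finset.mem_range.2 hlt')
      (subset_closure hyV))

/-- A space partitioned into clopen Lindelöf sets is paracompact (given regularity). -/
theorem paracompact_of_partition {G : Type u} [TopologicalSpace G] [RegularSpace G]
    (J : G → Set G) (hclopen : ∀ i, IsClopen (J i)) (hL : ∀ i, IsLindelof (J i))
    (hdisj : ∀ i j x, x ∈ J i → x ∈ J j → i = j) (hcov : ∀ x, ∃ i, x ∈ J i) :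
    ParacompactSpace G := by
  classical
  refine ⟨?_⟩
  intro α s hs hc
  rcases isEmpty_or_nonempty G with hG | hG
  · exact ⟨α, s, hs, hc, fun x => (hG.false x).elim, fun b => ⟨b, Subset.rfl⟩⟩
  have hα : Nonempty α := by
    obtain ⟨x⟩ := hG
    have : x ∈ ⋃ a, s a := by rw [hc]; trivial
    obtain ⟨a, -⟩ := mem_iUnion.1 this
    exact ⟨a⟩
  choose t hto htJ hts htc htf using fun i => lindelof_refine (hclopen i) (hL i) s hs hc
  refine ⟨G × ULift.{u} ℕ, fun b => t b.1 b.2.down, fun b => hto _ _, ?_, ?_, fun b => hts _ _⟩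
  · refine eq_univ_of_forall ?_
    intro x
    obtain ⟨i, hi⟩ := hcov x
    obtain ⟨n, hn⟩ := mem_iUnion.1 (htc i hi)
    exact mem_iUnion.2 ⟨(i, ⟨n⟩), hn⟩
  · intro z
    obtain ⟨i, hi⟩ := hcov z
    obtain ⟨W, hW, hWf⟩ := htf i z hi
    refine ⟨W ∩ J i, inter_mem hW ((hclopen i).isOpen.mem_nhds hi), ?_⟩
    refine (hWf.image (fun n => ((i, ⟨n⟩) : G × ULift.{u} ℕ))).subset ?_
    rintro ⟨j, ⟨n⟩⟩ ⟨y, hyt, hyW, hyJ⟩
    have hij : j = i := hdisj j i y (htJ j n hyt) hyJ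
    subst hij
    exact ⟨n, ⟨y, hyt, hyW⟩, rfl⟩

lemma sigmaCompact_prod {X Y : Type*} [TopologicalSpace X] [TopologicalSpace Y] {s : Set X}
    {t : Set Y} (hs : IsSigmaCompact s) (ht : IsSigmaCompact t) : IsSigmaCompact (s ×ˢ t) := by
  obtain ⟨K, hK, rfl⟩ := hs
  obtain ⟨L, hL, rfl⟩ := ht
  have : (⋃ n, K n) ×ˢ (⋃ n, L n) = ⋃ i : ℕ × ℕ, K i.1 ×ˢ L i.2 := by
    ext ⟨a, b⟩
    simp only [mem_prod, mem_iUnion, Prod.exists]
    exact ⟨fun ⟨⟨i, hi⟩, ⟨j, hj⟩⟩ => ⟨i, j, hi, hj⟩, fun ⟨i, j, hi, hj⟩ => ⟨⟨i, hi⟩, ⟨j, hj⟩⟩⟩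
  rw [this]
  exact isSigmaCompact_iUnion_of_isCompact _ (fun i => (hK _).prod (hL _))

namespace Rect

variable {G : Type u} [TopologicalSpace G] (R : Rect G)

/-- Sets stable under right translation by a neighbourhood of `e` are clopen. -/
lemma clopen_of_stable {N A : Set G} (hN : N ∈ 𝓝 R.e) (hA : ∀ x ∈ A, ∀ u ∈ N, R.p x u ∈ A) :
    IsClopen A := by
  constructor
  · rw [← closure_subset_iff_isClosed]
    intro z hz
    have h3 : Tendsto (fun v : G => R.q v z) (𝓝 z) (𝓝 R.e) := by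
      have := R.tq (l := 𝓝 z) (f := id) (g := fun _ => z) tendsto_id tendsto_const_nhds
      simpa only [R.qxx, id] using this
    obtain ⟨v, hv1, hv2⟩ := mem_closure_iff_nhds.1 hz _ (h3 hN)
    have := hA v hv2 _ hv1
    rwa [R.pq] at this
  · rw [isOpen_iff_mem_nhds]
    intro x hx
    refine mem_of_superset (R.image_mem_nhds (x := x) hN) ?_
    rintro _ ⟨u, hu, rfl⟩
    exact hA x hx u hu

/-- A rectifiable space with a σ-compact neighbourhood of `e` is a topological sum of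
σ-compact clopen subspaces. -/
theorem partition_of_sigmaCompact {N : Set G} (hN : N ∈ 𝓝 R.e) (hσ : IsSigmaCompact N) :
    ∃ J : G → Set G, (∀ i, IsClopen (J i)) ∧ (∀ i, IsSigmaCompact (J i)) ∧
      (∀ i j x, x ∈ J i → x ∈ J j → i = j) ∧ ∀ x, ∃ i, x ∈ J i := by
  classical
  let step : Set G → Set G := fun A => (fun z : G × G => R.p z.1 z.2) '' (A ×ˢ N)
  let H : G → ℕ → Set G := fun x n => step^[n] {x}
  have hHs : ∀ x n, H x (n+1) = step (H x n) := fun x n => Function.iterate_succ_apply' _ _ _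
  have hHσ : ∀ x n, IsSigmaCompact (H x n) := by
    intro x n
    induction n with
    | zero => exact isCompact_singleton.isSigmaCompact
    | succ n ih =>
      rw [hHs]
      exact (sigmaCompact_prod ih hσ).image R.cp
  let K : G → Set G := fun x => ⋃ n, H x n
  have hKσ : ∀ x, IsSigmaCompact (K x) := fun x => isSigmaCompact_iUnion _ (hHσ x)
  have hKst : ∀ x, ∀ y ∈ K x, ∀ u ∈ N, R.p y u ∈ K x := by
    intro x y hy u hu
    obtain ⟨n, hn⟩ := mem_iUnion.1 hy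
    refine mem_iUnion.2 ⟨n+1, ?_⟩
    rw [hHs]
    exact ⟨(y, u), ⟨hn, hu⟩, rfl⟩
  have hKself : ∀ x, x ∈ K x := fun x => mem_iUnion.2 ⟨0, rfl⟩
  let r : G → G → Prop := WellOrderingRel
  let J : G → Set G := fun x => K x \ ⋃ y ∈ {y | r y x}, K y
  have hJclopen : ∀ x, IsClopen (J x) := by
    intro x
    refine (R.clopen_of_stable hN (hKst x)).diff ?_
    refine R.clopen_of_stable hN ?_
    intro y hy u hu
    obtain ⟨w, hw, hyw⟩ := mem_iUnion₂.1 hy
    exact mem_iUnion₂.2 ⟨w, hw, hKst w y hyw u hu⟩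
  refine ⟨J, hJclopen, ?_, ?_, ?_⟩
  · intro x
    exact (hKσ x).of_isClosed_subset (hJclopen x).isClosed sdiff_subset
  · intro i j x hxi hxj
    rcases trichotomous_of r i j with h | h | h
    · exact absurd (mem_iUnion₂.2 ⟨i, h, hxi.1⟩) hxj.2
    · exact h
    · exact absurd (mem_iUnion₂.2 ⟨j, h, hxj.1⟩) hxi.2
  · intro x
    have hwf : WellFounded r := (inferInstance : IsWellFounded G WellOrderingRel).wf
    obtain ⟨m, hm, hmin⟩ := hwf.has_min {y | x ∈ K y} ⟨x, hKself x⟩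
    refine ⟨m, hm, ?_⟩
    intro hmem
    obtain ⟨w, hw, hxw⟩ := mem_iUnion₂.1 hmem
    exact hmin w hxw hw

end Rect

end U88.RS
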