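import Mathlib

/-!
# Rectifiable spaces: basic facts (helper88, MP_32aa7d_gt)
-/

open Set Filter Topology

namespace U88.RS

universe u

/-- The two operations of a rectifiable space: `p x` and `q x` are mutually inverse,
`q x x = e`, both jointly continuous. -/
structure Rect (G : Type u) [TopologicalSpace G] where
  e : G
  p : G → G → G
  q : G → G → G
  cp : Continuous (fun z : G × G => p z.1 z.2)
  cq : Continuous (fun z : G × G => q z.1 z.2)
  pq : ∀ x y, p x (q x y) = y
  qp : ∀ x y, q x (p x y) = y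
  qxx : ∀ x, q x x = e

namespace Rect

variable {G : Type u} [TopologicalSpace G] (R : Rect G)

lemma pe (x : G) : R.p x R.e = x := by
  rw [← R.qxx x, R.pq]

lemma tp {ι : Type*} {l : Filter ι} {f g : ι → G} {a b : G}
    (hf : Tendsto f l (𝓝 a)) (hg : Tendsto g l (𝓝 b)) :
    Tendsto (fun i => R.p (f i) (g i)) l (𝓝 (R.p a b)) :=
  (R.cp.tendsto (a, b)).comp (hf.prodMk_nhds hg)

lemma tq {ι : Type*} {l : Filter ι} {f g : ι → G} {a b : G}
    (hf : Tendsto f l (𝓝 a)) (hg : Tendsto g l (𝓝 b)) :
    Tendsto (fun i => R.q (f i) (g i)) l (𝓝 (R.q a b)) :=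
  (R.cq.tendsto (a, b)).comp (hf.prodMk_nhds hg)

/-- `p x` is a homeomorphism of `G`. -/
def hom (x : G) : G ≃ₜ G where
  toFun := R.p x
  invFun := R.q x
  left_inv := R.qp x
  right_inv := R.pq x
  continuous_toFun := R.cp.comp (continuous_const.prodMk continuous_id)
  continuous_invFun := R.cq.comp (continuous_const.prodMk continuous_id)

/-- every point is moved to `e` by `q x`. -/
lemma nhds_eq (x : G) : Filter.map (R.p x) (𝓝 R.e) = 𝓝 x := by
  have := (R.hom x).map_nhds_eq R.e
  have h2 : (R.hom x) R.e = x := R.pe x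
  rw [h2] at this
  exact this

lemma image_mem_nhds {x : G} {V : Set G} (hV : V ∈ 𝓝 R.e) : R.p x '' V ∈ 𝓝 x := by
  rw [← R.nhds_eq x]
  exact Filter.image_mem_map hV

include R in
lemma regular : RegularSpace G := by
  refine RegularSpace.of_exists_mem_nhds_isClosed_subset ?_
  intro x W hW
  -- move to e
  have hW' : (R.p x) ⁻¹' W ∈ 𝓝 R.e := by
    have := hW
    rw [← R.nhds_eq x] at this
    exact this
  -- V with p(V×V) ⊆ W'
  have h1 : Tendsto (fun z : G × G => R.p z.1 z.2) (𝓝 (R.e, R.e)) (𝓝 R.e) := by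
    have := R.cp.tendsto (R.e, R.e)
    simpa only [R.pe] using this
  have h2 := h1 hW'
  rw [nhds_prod_eq] at h2
  obtain ⟨V, hV, hVW⟩ := Filter.mem_prod_same_iff.1 (Filter.mem_map.1 h2)
  refine ⟨R.p x '' closure V, ?_, ?_, ?_⟩
  · exact R.image_mem_nhds (Filter.mem_of_superset hV subset_closure)
  · exact (R.hom x).isClosedMap _ isClosed_closure
  · rintro _ ⟨z, hz, rfl⟩
    -- find v ∈ V near z with q v z ∈ V
    have h3 : Tendsto (fun v : G => R.q v z) (𝓝 z) (𝓝 R.e) := by
      have := R.tq (l := 𝓝 z) (f := id) (g := fun _ => z) tendsto_id tendsto_const_nhds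
      simpa only [R.qxx, id] using this
    have h4 := h3 hV
    obtain ⟨v, hv1, hv2⟩ := mem_closure_iff_nhds.1 hz _ h4
    have h5 : ((v, R.q v z) : G × G) ∈ V ×ˢ V := ⟨hv2, hv1⟩
    have h6 := hVW h5
    simp only [mem_preimage, R.pq] at h6
    exact h6

end Rect

/-- The rectification homeomorphism gives the operations. -/
def ofHomeo {G : Type u} [TopologicalSpace G] (e : G) (φ : G × G ≃ₜ G × G)
    (h1 : ∀ x y, (φ (x, y)).1 = x) (h2 : ∀ x, φ (x, x) = (x, e)) : Rect G where
  e := e
  p x y := (φ.symm (x, y)).2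
  q x y := (φ (x, y)).2
  cp := by
    have : Continuous (fun z : G × G => (φ.symm z).2) := continuous_snd.comp φ.symm.continuous
    exact this
  cq := by
    have : Continuous (fun z : G × G => (φ z).2) := continuous_snd.comp φ.continuous
    exact this
  pq := by
    intro x y
    have : (x, (φ (x, y)).2) = φ (x, y) := by
      ext
      · exact (h1 x y).symm
      · rfl
    rw [this, Homeomorph.symm_apply_apply]
  qp := by
    intro x y
    have h3 : (φ.symm (x, y)).1 = x := by
      have := h1 (φ.symm (x, y)).1 (φ.symm (x, y)).2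
      rw [Prod.mk.eta, Homeomorph.apply_symm_apply] at this
      exact this.symm
    have : (x, (φ.symm (x, y)).2) = φ.symm (x, y) := by
      ext
      · exact h3.symm
      · rfl
    rw [this, Homeomorph.apply_symm_apply]
  qxx := by
    intro x
    rw [h2]

/-! ## Discrete families -/

section Disc
variable {G : Type u} [TopologicalSpace G]

/-- a family without accumulation: every point has a neighbourhood containing `x i`
for finitely many `i` only. -/
def Disc {ι : Type*} (x : ι → G) : Prop := ∀ z, ∃ V ∈ 𝓝 z, {i | x i ∈ V}.Finite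

lemma Disc.not_tendsto {ι : Type*} {x : ι → G} (hx : Disc x) {k : ℕ → ι}
    (hk : Function.Injective k) (z : G) : ¬ Tendsto (fun n => x (k n)) atTop (𝓝 z) := by
  intro h
  obtain ⟨V, hV, hfin⟩ := hx z
  have h1 := h hV
  obtain ⟨N, hN⟩ := Filter.mem_atTop_sets.1 (Filter.mem_map.1 h1)
  have h2 : (k '' Ici N) ⊆ {i | x i ∈ V} := by
    rintro _ ⟨n, hn, rfl⟩
    exact hN n hn
  have h3 : (k '' Ici N).Finite := hfin.subset h2
  exact (Set.Ici_infinite N) (Set.Finite.of_finite_image h3 hk.injOn)

/-- sequence with infinitely many values has an injective subsequence -/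
lemma exists_inj_subseq {ι : Type*} (k : ℕ → ι) (hk : (range k).Infinite) :
    ∃ φ : ℕ → ℕ, StrictMono φ ∧ Function.Injective (fun n => k (φ n)) := by
  classical
  set S : Set ℕ := {n | ∀ m < n, k m ≠ k n} with hS
  have hSinf : S.Infinite := by
    intro hfin
    apply hk
    refine (hfin.image k).subset ?_
    rintro _ ⟨n, rfl⟩
    have hex : ∃ m, k m = k n := ⟨n, rfl⟩
    refine ⟨Nat.find hex, ?_, Nat.find_spec hex⟩
    intro m hm hmm
    exact Nat.find_min hex hm (hmm.trans (Nat.find_spec hex))
  have : Infinite S := hSinf.to_subtype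
  refine ⟨fun n => (Nat.orderEmbeddingOfSet S) n, (Nat.orderEmbeddingOfSet S).strictMono, ?_⟩
  intro a b hab
  simp only at hab
  have hmem : ∀ n, (Nat.orderEmbeddingOfSet S) n ∈ S := by
    intro n
    have : (Nat.orderEmbeddingOfSet S) n ∈ range (Nat.orderEmbeddingOfSet S) := ⟨n, rfl⟩
    rwa [Nat.orderEmbeddingOfSet_range] at this
  rcases lt_trichotomy a b with h | h | h
  · exact absurd hab (hmem b _ ((Nat.orderEmbeddingOfSet S).strictMono h))
  · exact h
  · exact absurd hab.symm (hmem a _ ((Nat.orderEmbeddingOfSet S).strictMono h))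

/-- enumerate an infinite set of naturals -/
lemma exists_enum {J : Set ℕ} (hJ : J.Infinite) :
    ∃ φ : ℕ → ℕ, StrictMono φ ∧ ∀ n, φ n ∈ J := by
  classical
  have : Infinite J := hJ.to_subtype
  refine ⟨fun n => (Nat.orderEmbeddingOfSet J) n, (Nat.orderEmbeddingOfSet J).strictMono, ?_⟩
  intro n
  have : (Nat.orderEmbeddingOfSet J) n ∈ range (Nat.orderEmbeddingOfSet J) := ⟨n, rfl⟩
  rwa [Nat.orderEmbeddingOfSet_range] at this

variable [T2Space G] [SequentialSpace G]

/-- In a sequential Hausdorff space a family none of whose injective subsequences converges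
is a discrete family. -/
lemma disc_of_seq {ι : Type*} {x : ι → G}
    (h : ∀ k : ℕ → ι, Function.Injective k → ∀ z, ¬ Tendsto (fun n => x (k n)) atTop (𝓝 z)) :
    Disc x := by
  classical
  intro z
  set J : Set ι := {i | x i ≠ z} with hJ
  have hclosed : IsClosed (x '' J) := by
    apply IsSeqClosed.isClosed
    intro t w ht htw
    choose k hkJ hk using ht
    by_cases hinf : (range k).Infinite
    · obtain ⟨φ, hφ, hinj⟩ := exists_inj_subseq k hinf
      exfalso
      refine h (fun n => k (φ n)) hinj w ?_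
      have h1 := htw.comp hφ.tendsto_atTop
      refine h1.congr ?_
      intro n
      simp only [Function.comp]
      exact (hk (φ n)).symm
    · rw [Set.not_infinite] at hinf
      have hfin : (range t).Finite := by
        refine (hinf.image x).subset ?_
        rintro _ ⟨n, rfl⟩
        exact ⟨k n, ⟨n, rfl⟩, hk n⟩
      have hw : w ∈ range t :=
        hfin.isClosed.mem_of_tendsto htw (Eventually.of_forall fun n => ⟨n, rfl⟩)
      obtain ⟨n, rfl⟩ := hw
      exact ⟨k n, hkJ n, hk n⟩
  refine ⟨(x '' J)ᶜ, hclosed.isOpen_compl.mem_nhds ?_, ?_⟩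
  · rintro ⟨i, hi, hiz⟩
    exact hi hiz
  · by_contra hinf
    have hinf' : {i | x i ∈ (x '' J)ᶜ}.Infinite := hinf
    let k := hinf'.natEmbedding
    refine h (fun n => (k n : ι)) (fun a b hab => k.injective (Subtype.ext hab)) z ?_
    have h1 : ∀ n, x (k n : ι) = z := by
      intro n
      by_contra hne
      exact (k n).2 ⟨_, hne, rfl⟩
    have : (fun n => x (k n : ι)) = fun _ => z := funext h1
    rw [this]
    exact tendsto_const_nhds

/-- compact sets are sequentially compact -/
lemma exists_subseq_of_compact {C : Set G} (hC : IsCompact C) (x : ℕ → G) (hx : ∀ n, x n ∈ C) :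
    ∃ k : ℕ → ℕ, Function.Injective k ∧ ∃ z ∈ C, Tendsto (fun n => x (k n)) atTop (𝓝 z) := by
  by_contra hcon
  push Not at hcon
  have hd : Disc x := by
    refine disc_of_seq ?_
    intro k hk z hz
    exact hcon k hk z (hC.isClosed.mem_of_tendsto hz (Eventually.of_forall fun n => hx _)) hz
  choose V hV hfin using hd
  obtain ⟨t, -, ht⟩ := hC.elim_nhds_subcover V (fun z _ => hV z)
  have : (univ : Set ℕ) ⊆ ⋃ z ∈ t, {i | x i ∈ V z} := by
    intro n _
    have := ht (hx n)
    simpa only [mem_iUnion, mem_ofPred_eq] using this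
  exact Set.infinite_univ ((t.finite_toSet.biUnion fun z _ => hfin z).subset this)

end Disc

end U88.RS
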