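import Pool.Agent.U88.RS.Net

/-!
# Fans at `e` (helper88, MP_32aa7d_gt)
-/

open Set Filter Topology

namespace U88.RS

universe u

variable {G : Type u} [TopologicalSpace G]

/-- a closed copy of the sequential fan centred at `e`, as a system of sequences -/
def Fan (e : G) (s : ℕ → ℕ → G) : Prop :=
  (∀ n, Tendsto (s n) atTop (𝓝 e)) ∧
    ∀ n k : ℕ → ℕ, StrictMono n → ∀ z, ¬ Tendsto (fun j => s (n j) (k j)) atTop (𝓝 z)

/-- the members of the refined network -/
def Q (𝒜 : Set (Set G)) : Set (Set G) :=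
  {A | IsCompact (closure A) ∧ ∃ F : Finset (Set G), (∀ P ∈ F, P ∈ 𝒜) ∧ A = ⋂₀ (F : Set (Set G))}

lemma Q_pc {𝒜 : Set (Set G)} (h : PC 𝒜) : PC (Q 𝒜) := by
  classical
  intro x
  have h1 := (countable_ofPred_finite_subset (h x)).preimage_of_injOn
    (f := fun F : Finset (Set G) => (F : Set (Set G))) Finset.coe_injective.injOn
  refine (h1.image (fun F : Finset (Set G) => ⋂₀ (F : Set (Set G)))).mono ?_
  rintro A ⟨⟨-, F, hF, rfl⟩, hx⟩
  refine ⟨F, ⟨F.finite_toSet, ?_⟩, rfl⟩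
  intro P hP
  exact ⟨hF P hP, hx P hP⟩

variable [T2Space G] [SequentialSpace G]

/-- If there is a fan at `e`, the relatively compact finite intersections form a network. -/
lemma Q_net (R : Rect G) {𝒜 : Set (Set G)} (hpc : PC 𝒜) (hnet : NetU 𝒜) {s : ℕ → ℕ → G}
    (hs : Fan R.e s) : NetU (Q 𝒜) := by
  classical
  have hreg : RegularSpace G := R.regular
  intro x z hx U hU hz
  set ℛ : Set (Set G) := {P | P ∈ 𝒜 ∧ ∀ᶠ j in (hyperfilter ℕ : Filter ℕ), x j ∈ P} with hℛ
  have hℛc : ℛ.Countable := by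
    refine (hpc.meets (countable_range x)).mono ?_
    rintro P ⟨h1, h2⟩
    obtain ⟨j, hj⟩ := (infinite_of_hyper h2).nonempty
    exact ⟨h1, x j, ⟨j, rfl⟩, hj⟩
  obtain ⟨F, hFm, hFR, hFe⟩ := seqEnum hℛc
  let A : ℕ → Set G := fun n => ⋂₀ (F n : Set (Set G))
  have hAx : ∀ n, ∀ᶠ j in (hyperfilter ℕ : Filter ℕ), x j ∈ A n := by
    intro n
    have : ∀ᶠ j in (hyperfilter ℕ : Filter ℕ), ∀ P ∈ (F n : Set (Set G)), x j ∈ P := by
      rw [Filter.eventually_all_finite (F n).finite_toSet]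
      intro P hP
      exact (hFR n P hP).2
    filter_upwards [this] with j hj
    exact mem_sInter.2 hj
  -- network property at z
  have hAnet : ∀ V ∈ 𝓝 z, ∃ N, ∀ n ≥ N, closure (A n) ⊆ V := by
    intro V hV
    obtain ⟨W, hW, hWc, hWV⟩ := exists_mem_nhds_isClosed_subset hV
    obtain ⟨P, hP, hPW, hPx⟩ := hnet x z hx (interior W) isOpen_interior
      (mem_interior_iff_mem_nhds.2 hW)
    obtain ⟨N, hN⟩ := hFe P ⟨hP, hPx⟩
    refine ⟨N, fun n hn => ?_⟩
    refine (closure_minimal ?_ hWc).trans hWV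
    intro y hy
    exact interior_subset (hPW (mem_sInter.1 hy P (hFm hn hN)))
  -- some closure is compact
  have hcomp : ∃ n, IsCompact (closure (A n)) := by
    by_contra hcon
    push Not at hcon
    have h1 : ∀ n, ∃ d : ℕ → G, (∀ m, d m ∈ closure (A n)) ∧ Disc d := fun n =>
      compact_or_disc hpc hnet.net isClosed_closure (hcon n)
    choose d hdA hdD using h1
    have h2 : ∀ n, ∃ f : ℕ → ℕ, ∀ g : ℕ → ℕ, (∀ i, f i ≤ g i) → ∀ k : ℕ → ℕ,
        Function.Injective k → ∀ z,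
        ¬ Tendsto (fun m => R.p (d n (k m)) (s n (g (k m)))) atTop (𝓝 z) := by
      intro n
      refine slow hpc hnet.net (hdD n) (y := fun m k => R.p (d n m) (s n k)) ?_
      intro m
      have := R.tp (l := atTop) (f := fun _ : ℕ => d n m) (g := s n) tendsto_const_nhds (hs.1 n)
      rwa [R.pe] at this
    choose f hf using h2
    let g : ℕ → ℕ → ℕ := fun n m => max (f n m) m
    let T : ℕ × ℕ → G := fun i => R.p (d i.1 i.2) (s i.1 (g i.1 i.2))
    have hT : Disc T := by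
      refine disc_of_seq ?_
      intro κ hκ w hw
      by_cases hfib : ∃ n, {j | (κ j).1 = n}.Infinite
      · obtain ⟨n, hn⟩ := hfib
        obtain ⟨φ, hφ, hφn⟩ := exists_enum hn
        refine hf n (g n) (fun i => le_max_left _ _) (fun i => (κ (φ i)).2) ?_ w ?_
        · intro a b hab
          apply hφ.injective
          apply hκ
          refine Prod.ext ?_ hab
          rw [hφn a, hφn b]
        · refine (hw.comp hφ.tendsto_atTop).congr ?_
          intro i
          have : (κ (φ i)).1 = n := hφn i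
          simp only [Function.comp, T, this]
      · push Not at hfib
        have h3 : Tendsto (fun j => (κ j).1) atTop atTop := by
          rw [← Nat.cofinite_eq_atTop]
          refine Filter.Tendsto.cofinite_of_finite_preimage_singleton ?_
          intro n
          exact hfib n
        obtain ⟨φ, hφ, hφm⟩ := strictMono_subseq_of_tendsto_atTop h3
        -- d → z along the subsequence
        have h4 : Tendsto (fun i => d (κ (φ i)).1 (κ (φ i)).2) atTop (𝓝 z) := by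
          intro V hV
          obtain ⟨N, hN⟩ := hAnet V hV
          have h5 : ∀ᶠ i in atTop, N ≤ (κ (φ i)).1 :=
            (hφm.tendsto_atTop).eventually (eventually_ge_atTop N)
          refine h5.mono fun i hi => ?_
          exact hN _ hi (hdA _ _)
        have h6 := R.tq h4 (hw.comp hφ.tendsto_atTop)
        refine hs.2 (fun i => (κ (φ i)).1) (fun i => g (κ (φ i)).1 (κ (φ i)).2) hφm (R.q z w) ?_
        refine h6.congr ?_
        intro i
        simp only [Function.comp, T]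
        rw [R.qp]
    obtain ⟨V, hV, hVfin⟩ := hT z
    have h7 : Tendsto (fun y : G × G => R.p y.1 y.2) (𝓝 (z, R.e)) (𝓝 z) := by
      have := R.cp.tendsto (z, R.e)
      simpa only [R.pe] using this
    have h8 := h7 hV
    rw [nhds_prod_eq] at h8
    obtain ⟨V1, hV1, V2, hV2, hV12⟩ := Filter.mem_prod_iff.1 (Filter.mem_map.1 h8)
    obtain ⟨N, hN⟩ := hAnet V1 hV1
    obtain ⟨M, hM⟩ := eventually_atTop.1 ((hs.1 N) hV2)
    have h9 : ((fun m => (N, m)) '' Ici M) ⊆ {i | T i ∈ V} := by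
      rintro _ ⟨m, hm, rfl⟩
      have : (d N m, s N (g N m)) ∈ V1 ×ˢ V2 :=
        ⟨hN N le_rfl (hdA _ _), hM _ (le_trans hm (le_max_right _ _))⟩
      exact hV12 this
    have h10 := hVfin.subset h9
    refine (Set.Ici_infinite M) (Set.Finite.of_finite_image h10 ?_)
    intro a _ b _ hab
    exact (Prod.ext_iff.1 hab).2
  obtain ⟨n, hn⟩ := hcomp
  obtain ⟨P, hP, hPU, hPx⟩ := hnet x z hx U hU hz
  refine ⟨P ∩ A n, ⟨?_, insert P (F n), ?_, ?_⟩, inter_subset_left.trans hPU, ?_⟩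
  · exact hn.of_isClosed_subset isClosed_closure (closure_mono inter_subset_right)
  · intro B hB
    rcases Finset.mem_insert.1 hB with rfl | hB
    · exact hP
    · exact (hFR n B hB).1
  · simp only [Finset.coe_insert, sInter_insert, A]
  · filter_upwards [hPx, hAx n] with j h1 h2
    exact ⟨h1, h2⟩

omit [SequentialSpace G] in
/-- If there is no fan at `e` then `e` has the α₄ property. -/
lemma alpha4_of_no_fan {e : G} {𝒜 : Set (Set G)} (hpc : PC 𝒜) (hnet : Net 𝒜)
    (hno : ∀ s, ¬ Fan e s) (s : ℕ → ℕ → G) (hs : ∀ n, Tendsto (s n) atTop (𝓝 e)) :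
    ∃ n k : ℕ → ℕ, StrictMono n ∧ Tendsto (fun j => s (n j) (k j)) atTop (𝓝 e) := by
  classical
  set 𝒞 : Set (Set G) := insert ∅ {P | (P ∈ 𝒜 ∧ ∃ x ∈ ⋃ n, range (s n), x ∈ P) ∧
    ∀ n, {k | s n k ∈ P}.Finite} with h𝒞
  have hCc : 𝒞.Countable := by
    refine Set.Countable.insert _ ?_
    have h1 := hpc.meets (C := ⋃ i, range (s i)) (countable_iUnion fun i => countable_range _)
    exact h1.mono fun P hP => hP.1
  obtain ⟨P, hP⟩ := hCc.exists_eq_range ⟨∅, mem_insert _ _⟩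
  have hPfin : ∀ i n, {k | s n k ∈ P i}.Finite := by
    intro i n
    have : P i ∈ 𝒞 := by rw [hP]; exact ⟨i, rfl⟩
    rcases this with h | h
    · rw [h]; simp
    · exact h.2 n
  have hf : ∀ n, ∃ N, ∀ i ≤ n, ∀ k ≥ N, s n k ∉ P i := by
    intro n
    have h2 : ∀ i, ∃ N, ∀ k ≥ N, s n k ∉ P i := by
      intro i
      obtain ⟨N, hN⟩ := (hPfin i n).bddAbove
      refine ⟨N+1, fun k hk hkP => ?_⟩
      have := hN hkP
      omega
    choose N hN using h2
    refine ⟨(Finset.range (n + 1)).sup N, ?_⟩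
    intro i hi k hk
    exact hN i k (le_trans (Finset.le_sup (Finset.mem_range.2 (Nat.lt_succ_of_le hi))) hk)
  choose f hf using hf
  have h3 := hno (fun n k => s n (k + f n))
  unfold Fan at h3
  push Not at h3
  obtain ⟨n, k, hn, z, hz⟩ := h3 (fun n => (hs n).comp (tendsto_add_atTop_nat (f n)))
  by_cases hze : z = e
  · subst hze
    exact ⟨n, fun j => k j + f (n j), hn, hz⟩
  exfalso
  obtain ⟨V, O, hV, hO, hzV, heO, hVO⟩ := t2_separation hze
  obtain ⟨Q, hQ, hQV, hQinf⟩ := hnet _ z hz V hV hzV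
  have hQC : Q ∈ 𝒞 := by
    right
    refine ⟨⟨hQ, ?_⟩, ?_⟩
    · obtain ⟨j, hj⟩ := hQinf.nonempty
      exact ⟨_, mem_iUnion.2 ⟨n j, _, rfl⟩, hj⟩
    · intro m
      have h4 : ∀ᶠ k in atTop, s m k ∈ O := (hs m) (hO.mem_nhds heO)
      obtain ⟨N, hN⟩ := eventually_atTop.1 h4
      refine (Set.finite_Iio N).subset ?_
      intro k hk
      by_contra hlt
      exact (disjoint_left.1 hVO) (hQV hk) (hN k (not_lt.1 hlt))
  rw [hP] at hQC
  obtain ⟨i, rfl⟩ := hQC
  obtain ⟨j, hj, hij⟩ := hQinf.exists_gt i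
  refine hf (n j) i ?_ (k j + f (n j)) (Nat.le_add_left _ _) hj
  exact le_trans hij.le (hn.id_le j)

omit [T2Space G] in
/-- If `e` has the α₄ property, the space is first countable at `e`. -/
lemma firstCountable_of_alpha4 (R : Rect G) {𝒜 : Set (Set G)} (hpc : PC 𝒜) (hnet : Net 𝒜)
    (h4 : ∀ s : ℕ → ℕ → G, (∀ n, Tendsto (s n) atTop (𝓝 R.e)) →
      ∃ n k : ℕ → ℕ, StrictMono n ∧ Tendsto (fun j => s (n j) (k j)) atTop (𝓝 R.e)) :
    (𝓝 R.e).IsCountablyGenerated := by
  classical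
  -- Frechet-Urysohn property
  have hFU : ∀ A : Set G, closure A ⊆ seqClosure A := by
    intro A
    refine closure_minimal subset_seqClosure ?_
    apply IsSeqClosed.isClosed
    intro x z hx hz
    choose y hyA hy using hx
    have h5 : ∀ n, Tendsto (fun k => R.q (x n) (y n k)) atTop (𝓝 R.e) := by
      intro n
      have := R.tq (l := atTop) (f := fun _ : ℕ => x n) (g := y n) tendsto_const_nhds (hy n)
      rwa [R.qxx] at this
    obtain ⟨n, k, hn, hnk⟩ := h4 _ h5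
    refine ⟨fun j => y (n j) (k j), fun j => hyA _ _, ?_⟩
    have h6 := R.tp (hz.comp hn.tendsto_atTop) hnk
    rw [R.pe] at h6
    refine h6.congr ?_
    intro j
    simp only [Function.comp, R.pq]
  have hS : ∀ F : Finset (Set G), ∃ S : ℕ → G, Tendsto S atTop (𝓝 R.e) ∧
      (⋃₀ (F : Set (Set G)) ∉ 𝓝 R.e → ∀ k, S k ∉ ⋃₀ (F : Set (Set G))) := by
    intro F
    by_cases hF : ⋃₀ (F : Set (Set G)) ∈ 𝓝 R.e
    · exact ⟨fun _ => R.e, tendsto_const_nhds, fun h => absurd hF h⟩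
    · have : R.e ∈ closure (⋃₀ (F : Set (Set G)))ᶜ := by
        rw [closure_compl, mem_compl_iff, mem_interior_iff_mem_nhds]
        exact hF
      obtain ⟨S, hS1, hS2⟩ := hFU _ this
      exact ⟨S, hS2, fun _ => hS1⟩
  choose S hS1 hS2 using hS
  obtain ⟨𝒯, hTP, hTc, hT⟩ := closing_off hpc (fun F => range (S F)) (fun F => countable_range _)
  have hbase : ∀ U, IsOpen U → R.e ∈ U → ∃ F : Finset (Set G), (∀ P ∈ F, P ∈ 𝒯) ∧
      (∀ P ∈ F, P ⊆ U) ∧ ⋃₀ (F : Set (Set G)) ∈ 𝓝 R.e := by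
    intro U hU heU
    obtain ⟨F, hFm, hFT, hFe⟩ := seqEnum (𝒯 := {P | P ∈ 𝒯 ∧ P ⊆ U}) (hTc.mono fun P hP => hP.1)
    by_contra hcon
    push Not at hcon
    have h7 : ∀ n, ⋃₀ (F n : Set (Set G)) ∉ 𝓝 R.e := fun n =>
      hcon (F n) (fun P hP => (hFT n P hP).1) (fun P hP => (hFT n P hP).2)
    obtain ⟨n, k, hn, hnk⟩ := h4 (fun n k => S (F n) k) (fun n => hS1 _)
    obtain ⟨P, hP, hPU, hPinf⟩ := hnet _ _ hnk U hU heU
    obtain ⟨j0, hj0⟩ := hPinf.nonempty
    have hPT : P ∈ 𝒯 := hT (F (n j0)) (fun P hP => (hFT _ P hP).1) P hP ⟨_, ⟨k j0, rfl⟩, hj0⟩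
    obtain ⟨m, hm⟩ := hFe P ⟨hPT, hPU⟩
    obtain ⟨j, hj, hmj⟩ := hPinf.exists_gt m
    refine hS2 (F (n j)) (h7 _) (k j) ?_
    exact mem_sUnion.2 ⟨P, hFm (le_trans hmj.le (hn.id_le j)) hm, hj⟩
  -- countable base
  have hcnt : {F : Finset (Set G) | (∀ P ∈ F, P ∈ 𝒯) ∧ ⋃₀ (F : Set (Set G)) ∈ 𝓝 R.e}.Countable := by
    have h1 := (countable_ofPred_finite_subset hTc).preimage_of_injOn
      (f := fun F : Finset (Set G) => (F : Set (Set G))) Finset.coe_injective.injOn
    refine h1.mono ?_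
    intro F hF
    exact ⟨F.finite_toSet, hF.1⟩
  refine Filter.HasCountableBasis.isCountablyGenerated (p := fun F : Finset (Set G) =>
    (∀ P ∈ F, P ∈ 𝒯) ∧ ⋃₀ (F : Set (Set G)) ∈ 𝓝 R.e)
    (s := fun F : Finset (Set G) => ⋃₀ (F : Set (Set G))) ⟨⟨?_⟩, hcnt⟩
  intro W
  constructor
  · intro hW
    obtain ⟨F, hF1, hF2, hF3⟩ := hbase (interior W) isOpen_interior
      (mem_interior_iff_mem_nhds.2 hW)
    refine ⟨F, ⟨hF1, hF3⟩, ?_⟩
    refine sUnion_subset ?_
    intro P hP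
    exact (hF2 P hP).trans interior_subset
  · rintro ⟨F, ⟨-, hF⟩, hFW⟩
    exact mem_of_superset hF hFW

end U88.RS
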