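import Pool.Agent.U88.RS.Basic

/-!
# Point-countable networks (helper88, MP_32aa7d_gt)
-/

open Set Filter Topology

namespace U88.RS

universe u

variable {G : Type u}

/-- point-countable family -/
def PC (𝒮 : Set (Set G)) : Prop := ∀ x, {P | P ∈ 𝒮 ∧ x ∈ P}.Countable

lemma PC.mono {𝒮 𝒯 : Set (Set G)} (h : PC 𝒮) (hst : 𝒯 ⊆ 𝒮) : PC 𝒯 := by
  intro x
  refine (h x).mono ?_
  rintro P ⟨h1, h2⟩
  exact ⟨hst h1, h2⟩

lemma PC.meets {𝒮 : Set (Set G)} (h : PC 𝒮) {C : Set G} (hC : C.Countable) :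
    {P | P ∈ 𝒮 ∧ ∃ x ∈ C, x ∈ P}.Countable := by
  have : {P | P ∈ 𝒮 ∧ ∃ x ∈ C, x ∈ P} = ⋃ x ∈ C, {P | P ∈ 𝒮 ∧ x ∈ P} := by
    ext P
    simp only [mem_ofPred_eq, mem_iUnion, exists_prop]
    constructor
    · rintro ⟨h1, x, hx, hxP⟩
      exact ⟨x, hx, h1, hxP⟩
    · rintro ⟨x, hx, h1, hxP⟩
      exact ⟨h1, x, hx, hxP⟩
  rw [this]
  exact hC.biUnion fun x _ => h x

/-- closing-off lemma -/
lemma closing_off {𝒮 : Set (Set G)} (h : PC 𝒮) (Y : Finset (Set G) → Set G)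
    (hY : ∀ F, (Y F).Countable) :
    ∃ 𝒯 : Set (Set G), 𝒯 ⊆ 𝒮 ∧ 𝒯.Countable ∧
      ∀ F : Finset (Set G), (∀ P ∈ F, P ∈ 𝒯) → ∀ P ∈ 𝒮, (∃ x ∈ Y F, x ∈ P) → P ∈ 𝒯 := by
  classical
  let step : Set (Set G) → Set (Set G) := fun T =>
    T ∪ {P | P ∈ 𝒮 ∧ ∃ x ∈ ⋃ F ∈ {F : Finset (Set G) | (F : Set (Set G)) ⊆ T}, Y F, x ∈ P}
  let T : ℕ → Set (Set G) := fun n => step^[n] ∅
  have hT0 : T 0 = ∅ := rfl
  have hTs : ∀ n, T (n+1) = step (T n) := fun n => Function.iterate_succ_apply' step n ∅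
  have hmono : Monotone T := by
    refine monotone_nat_of_le_succ ?_
    intro n
    rw [hTs]
    exact subset_union_left
  have hsub : ∀ n, T n ⊆ 𝒮 := by
    intro n
    induction n with
    | zero => rw [hT0]; exact empty_subset _
    | succ n ih =>
      rw [hTs]
      rintro P (hP | hP)
      · exact ih hP
      · exact hP.1
  have hcount : ∀ n, (T n).Countable := by
    intro n
    induction n with
    | zero => rw [hT0]; exact countable_empty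
    | succ n ih =>
      rw [hTs]
      refine ih.union (h.meets ?_)
      refine Set.Countable.biUnion ?_ (fun F _ => hY F)
      have h1 : {F : Finset (Set G) | (F : Set (Set G)) ⊆ T n}.Countable := by
        have h2 := countable_ofPred_finite_subset ih
        have h4 := h2.preimage_of_injOn (f := fun F : Finset (Set G) => (F : Set (Set G)))
          Finset.coe_injective.injOn
        refine h4.mono ?_
        intro F hF
        exact ⟨F.finite_toSet, hF⟩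
      exact h1
  refine ⟨⋃ n, T n, iUnion_subset hsub, countable_iUnion hcount, ?_⟩
  intro F hF P hP hx
  -- F ⊆ T n for some n
  have hFn : ∃ n, ∀ P ∈ F, P ∈ T n := by
    have h3 : ∀ P ∈ F, ∃ n, P ∈ T n := fun P hP => mem_iUnion.1 (hF P hP)
    choose! g hg using h3
    refine ⟨F.sup g, ?_⟩
    intro P hP
    exact hmono (Finset.le_sup hP) (hg P hP)
  obtain ⟨n, hn⟩ := hFn
  refine mem_iUnion.2 ⟨n+1, ?_⟩
  rw [hTs]
  right
  obtain ⟨x, hx, hxP⟩ := hx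
  refine ⟨hP, x, ?_, hxP⟩
  refine mem_biUnion (show F ∈ {F : Finset (Set G) | (F : Set (Set G)) ⊆ T n} from ?_) hx
  intro Q hQ
  exact hn Q hQ

/-- a countable family is an increasing union of finite ones -/
lemma seqEnum {𝒯 : Set (Set G)} (h : 𝒯.Countable) :
    ∃ F : ℕ → Finset (Set G), Monotone F ∧ (∀ n, ∀ P ∈ F n, P ∈ 𝒯) ∧ ∀ P ∈ 𝒯, ∃ n, P ∈ F n := by
  classical
  rcases 𝒯.eq_empty_or_nonempty with rfl | hne
  · exact ⟨fun _ => ∅, monotone_const, by simp, by simp⟩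
  · obtain ⟨f, hf⟩ := h.exists_eq_range hne
    refine ⟨fun n => (Finset.range n).image f, ?_, ?_, ?_⟩
    · intro a b hab
      exact Finset.image_subset_image (Finset.range_mono hab)
    · intro n P hP
      obtain ⟨i, -, rfl⟩ := Finset.mem_image.1 hP
      rw [hf]; exact ⟨i, rfl⟩
    · intro P hP
      rw [hf] at hP
      obtain ⟨i, rfl⟩ := hP
      exact ⟨i+1, Finset.mem_image.2 ⟨i, by simp, rfl⟩⟩

/-- covering lemma -/
lemma cover {𝒮 : Set (Set G)} (h : PC 𝒮) {C : Set G}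
    (hC : ∀ x : ℕ → G, (∀ n, x n ∈ C) → ∃ P ∈ 𝒮, {n | x n ∈ P}.Infinite) :
    ∃ F : Finset (Set G), (∀ P ∈ F, P ∈ 𝒮) ∧ ∀ y ∈ C, ∃ P ∈ F, y ∈ P := by
  classical
  by_contra hcon
  push Not at hcon
  have hC0 : C.Nonempty := by
    obtain ⟨y, hy, -⟩ := hcon ∅ (by simp)
    exact ⟨y, hy⟩
  obtain ⟨y0, hy0⟩ := hC0
  have h1 : ∀ F : Finset (Set G), ∃ y ∈ C, (∀ P ∈ F, P ∈ 𝒮) → ∀ P ∈ F, y ∉ P := by
    intro F
    by_cases hF : ∀ P ∈ F, P ∈ 𝒮
    · obtain ⟨y, hy, hyF⟩ := hcon F hF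
      exact ⟨y, hy, fun _ => hyF⟩
    · exact ⟨y0, hy0, fun h => absurd h hF⟩
  choose Y hYC hY using h1
  obtain ⟨𝒯, hTS, hTc, hT⟩ := closing_off h (fun F => {Y F}) (fun F => countable_singleton _)
  obtain ⟨F, hFm, hFT, hFe⟩ := seqEnum hTc
  obtain ⟨P, hPS, hPinf⟩ := hC (fun n => Y (F n)) (fun n => hYC _)
  obtain ⟨n0, hn0⟩ := hPinf.nonempty
  have hPT : P ∈ 𝒯 := hT (F n0) (hFT n0) P hPS ⟨Y (F n0), rfl, hn0⟩
  obtain ⟨m, hm⟩ := hFe P hPT
  obtain ⟨n, hn, hmn⟩ := hPinf.exists_gt m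
  exact hY (F n) (fun P hP => hTS (hFT n P hP)) P (hFm hmn.le hm) hn

section Top
variable [TopologicalSpace G]

/-- cs*-network property -/
def Net (𝒮 : Set (Set G)) : Prop :=
  ∀ (x : ℕ → G) (z : G), Tendsto x atTop (𝓝 z) → ∀ U, IsOpen U → z ∈ U →
    ∃ P ∈ 𝒮, P ⊆ U ∧ {n | x n ∈ P}.Infinite

/-- the ultrafilter version of the cs*-network property -/
def NetU (𝒮 : Set (Set G)) : Prop :=
  ∀ (x : ℕ → G) (z : G), Tendsto x atTop (𝓝 z) → ∀ U, IsOpen U → z ∈ U →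
    ∃ P ∈ 𝒮, P ⊆ U ∧ ∀ᶠ n in (hyperfilter ℕ : Filter ℕ), x n ∈ P

lemma infinite_of_hyper {A : Set ℕ} (h : A ∈ (hyperfilter ℕ : Filter ℕ)) : A.Infinite := by
  intro hfin
  exact notMem_hyperfilter_of_finite hfin h

lemma NetU.net {𝒮 : Set (Set G)} (h : NetU 𝒮) : Net 𝒮 := by
  intro x z hx U hU hz
  obtain ⟨P, hP, hPU, hP2⟩ := h x z hx U hU hz
  exact ⟨P, hP, hPU, infinite_of_hyper hP2⟩

/-- a k-network is a (ultrafilter) network -/
lemma netU_of_kNet {𝒮 : Set (Set G)}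
    (hk : ∀ K U : Set G, IsCompact K → IsOpen U → K ⊆ U →
      ∃ F : Set (Set G), F ⊆ 𝒮 ∧ F.Finite ∧ K ⊆ ⋃₀ F ∧ ⋃₀ F ⊆ U) : NetU 𝒮 := by
  intro x z hx U hU hz
  have h1 : ∀ᶠ n in atTop, x n ∈ U := hx (hU.mem_nhds hz)
  obtain ⟨N, hN⟩ := eventually_atTop.1 h1
  have hx' : Tendsto (fun n => x (n + N)) atTop (𝓝 z) := hx.comp (tendsto_add_atTop_nat N)
  have hK : IsCompact (insert z (range fun n => x (n+N))) := hx'.isCompact_insert_range
  obtain ⟨F, hFS, hFfin, hKF, hFU⟩ := hk _ U hK hU (by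
    rintro y (rfl | ⟨n, rfl⟩)
    · exact hz
    · exact hN _ (Nat.le_add_left N n))
  -- the ultrafilter chooses a member
  have h2 : ∀ᶠ n in (hyperfilter ℕ : Filter ℕ), ∃ P ∈ F, x n ∈ P := by
    have h3 : ∀ᶠ n in (hyperfilter ℕ : Filter ℕ), N ≤ n := by
      have h4 : (atTop : Filter ℕ) = cofinite := Nat.cofinite_eq_atTop.symm
      have h5 : ∀ᶠ n in (atTop : Filter ℕ), N ≤ n := eventually_ge_atTop N
      rw [h4] at h5
      exact hyperfilter_le_cofinite h5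
    filter_upwards [h3] with n hn
    have : x n ∈ ⋃₀ F := hKF (Or.inr ⟨n - N, by simp only [Nat.sub_add_cancel hn]⟩)
    exact this
  have h6 : (⋃ P ∈ F, {n | x n ∈ P}) ∈ (hyperfilter ℕ) := by
    filter_upwards [h2] with n hn
    obtain ⟨P, hP, hxP⟩ := hn
    exact mem_biUnion hP hxP
  obtain ⟨P, hP, hP2⟩ := (Ultrafilter.finite_biUnion_mem_iff hFfin).1 h6
  exact ⟨P, hFS hP, (subset_sUnion_of_mem hP).trans hFU, hP2⟩

/-- Compactness criterion. -/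
lemma compact_or_disc [T2Space G] [SequentialSpace G] {𝒮 : Set (Set G)} (hpc : PC 𝒮)
    (hnet : Net 𝒮) {X : Set G} (hX : IsClosed X) (hnc : ¬ IsCompact X) :
    ∃ x : ℕ → G, (∀ n, x n ∈ X) ∧ Disc x := by
  classical
  by_contra hcon
  push Not at hcon
  apply hnc
  refine isCompact_of_finite_subcover ?_
  intro ι U hUo hXU
  have hpc' : PC {P | P ∈ 𝒮 ∧ ∃ i, P ⊆ U i} := hpc.mono fun P hP => hP.1
  obtain ⟨F, hF, hFX⟩ := cover hpc' (C := X) (by
    intro x hx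
    have h1 := hcon x hx
    have h2 : ¬ ∀ k : ℕ → ℕ, Function.Injective k → ∀ z,
        ¬ Tendsto (fun n => x (k n)) atTop (𝓝 z) := fun h => h1 (disc_of_seq h)
    push Not at h2
    obtain ⟨k, hk, z, hz⟩ := h2
    have hzX : z ∈ X := hX.mem_of_tendsto hz (Eventually.of_forall fun n => hx _)
    obtain ⟨i, hi⟩ := mem_iUnion.1 (hXU hzX)
    obtain ⟨P, hP, hPU, hPinf⟩ := hnet _ z hz (U i) (hUo i) hi
    refine ⟨P, ⟨hP, i, hPU⟩, ?_⟩
    have h3 : (k '' {n | x (k n) ∈ P}).Infinite := hPinf.image hk.injOn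
    refine h3.mono ?_
    rintro _ ⟨n, hn, rfl⟩
    exact hn)
  have hF' : ∀ P ∈ F, ∃ i, P ⊆ U i := fun P hP => (hF P hP).2
  choose i hi using hF'
  refine ⟨F.attach.image (fun P => i P.1 P.2), ?_⟩
  intro y hy
  obtain ⟨P, hP, hyP⟩ := hFX y hy
  refine mem_biUnion (Finset.mem_coe.2 (Finset.mem_image.2 ⟨⟨P, hP⟩, Finset.mem_attach _ _, rfl⟩))
    (hi P hP hyP)

/-- Covering compact sets by finitely many members of a point-countable network. -/
lemma cover_compact [T2Space G] [SequentialSpace G] {𝒮 : Set (Set G)} (hpc : PC 𝒮)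
    (hnet : Net 𝒮) {C : Set G} (hC : IsCompact C) :
    ∃ F : Finset (Set G), (∀ P ∈ F, P ∈ 𝒮) ∧ ∀ y ∈ C, ∃ P ∈ F, y ∈ P := by
  refine cover hpc ?_
  intro x hx
  obtain ⟨k, hk, z, hz, hkz⟩ := exists_subseq_of_compact hC x hx
  obtain ⟨P, hP, hPU, hPinf⟩ := hnet _ z hkz univ isOpen_univ (mem_univ _)
  refine ⟨P, hP, ?_⟩
  have h3 : (k '' {n | x (k n) ∈ P}).Infinite := hPinf.image hk.injOn
  refine h3.mono ?_
  rintro _ ⟨n, hn, rfl⟩
  exact hn

/-- Slow choice: a discrete countable family `d` and sequences `y i k → d i`. -/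
lemma slow [T2Space G] [SequentialSpace G] [RegularSpace G] {𝒮 : Set (Set G)} (hpc : PC 𝒮)
    (hnet : Net 𝒮) {ι : Type*} [Countable ι] {d : ι → G} (hd : Disc d) {y : ι → ℕ → G}
    (hy : ∀ i, Tendsto (y i) atTop (𝓝 (d i))) :
    ∃ f : ι → ℕ, ∀ g : ι → ℕ, (∀ i, f i ≤ g i) → ∀ k : ℕ → ι, Function.Injective k → ∀ z,
      ¬ Tendsto (fun n => y (k n) (g (k n))) atTop (𝓝 z) := by
  classical
  set 𝒞 : Set (Set G) := insert ∅ {P | (P ∈ 𝒮 ∧ ∃ x ∈ ⋃ i, range (y i), x ∈ P) ∧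
    {i | d i ∈ closure P}.Finite} with h𝒞
  have hCc : 𝒞.Countable := by
    refine Set.Countable.insert _ ?_
    have h1 := hpc.meets (C := ⋃ i, range (y i)) (countable_iUnion fun i => countable_range _)
    exact h1.mono fun P hP => hP.1
  obtain ⟨P, hP⟩ := hCc.exists_eq_range ⟨∅, mem_insert _ _⟩
  have hPfin : ∀ j, {i | d i ∈ closure (P j)}.Finite := by
    intro j
    have : P j ∈ 𝒞 := by rw [hP]; exact ⟨j, rfl⟩
    rcases this with h | h
    · rw [h]; simp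
    · exact h.2
  obtain ⟨c, hc⟩ := Countable.exists_injective_nat ι
  have hf : ∀ i, ∃ N, ∀ j ≤ c i, d i ∉ closure (P j) → ∀ k ≥ N, y i k ∉ P j := by
    intro i
    have h2 : ∀ j, ∃ N, d i ∉ closure (P j) → ∀ k ≥ N, y i k ∉ P j := by
      intro j
      by_cases hdj : d i ∈ closure (P j)
      · exact ⟨0, fun h => absurd hdj h⟩
      · have h3 : (closure (P j))ᶜ ∈ 𝓝 (d i) := isClosed_closure.isOpen_compl.mem_nhds hdj
        obtain ⟨N, hN⟩ := eventually_atTop.1 ((hy i) h3)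
        exact ⟨N, fun _ k hk hkP => hN k hk (subset_closure hkP)⟩
    choose N hN using h2
    refine ⟨(Finset.range (c i + 1)).sup N, ?_⟩
    intro j hj hdj k hk
    refine hN j hdj k ?_
    refine le_trans ?_ hk
    exact Finset.le_sup (Finset.mem_range.2 (Nat.lt_succ_of_le hj))
  choose f hf using hf
  refine ⟨f, ?_⟩
  intro g hg k hk z hz
  obtain ⟨V, hV, hVfin⟩ := hd z
  obtain ⟨W, hW, hWc, hWV⟩ := exists_mem_nhds_isClosed_subset hV
  obtain ⟨Q, hQ, hQU, hQinf⟩ := hnet _ z hz (interior W) isOpen_interior (mem_interior_iff_mem_nhds.2 hW)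
  have hQC : Q ∈ 𝒞 := by
    right
    refine ⟨⟨hQ, ?_⟩, ?_⟩
    · obtain ⟨n, hn⟩ := hQinf.nonempty
      exact ⟨_, mem_iUnion.2 ⟨k n, _, rfl⟩, hn⟩
    · refine hVfin.subset ?_
      intro i hi
      exact hWV (closure_minimal (hQU.trans interior_subset) hWc hi)
  rw [hP] at hQC
  obtain ⟨j, rfl⟩ := hQC
  -- finitely many exceptions
  have hexc : ({i | d i ∈ closure (P j)} ∪ {i | c i < j}).Finite := by
    refine (hPfin j).union ?_
    exact (Set.finite_Iio j).preimage hc.injOn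
  have hsub : {n | y (k n) (g (k n)) ∈ P j} ⊆ k ⁻¹' ({i | d i ∈ closure (P j)} ∪ {i | c i < j}) := by
    intro n hn
    by_contra hnot
    simp only [mem_preimage, mem_union, mem_ofPred_eq, not_or, not_lt] at hnot
    exact hf (k n) j hnot.2 hnot.1 (g (k n)) (hg _) hn
  exact hQinf ((hexc.preimage hk.injOn).subset hsub)

end Top

end U88.RS
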